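import Mathlib

set_option autoImplicit false

namespace Pool.Agent.R272.Chi

/-- The sequence `χ`: `χ_1 = 1` and `χ_i = max_{1 ≤ j ≤ i-1} (j+1)(i - χ_j)` for `i > 1`
(the value at `0` is irrelevant). In the third clause `i = n + 2` and the running index `j : Fin (n+1)`
stands for the index `j + 1` in `1, …, i - 1`. -/
def chi : ℕ → ℤ
  | 0 => 0
  | 1 => 1
  | (n + 2) => (Finset.univ : Finset (Fin (n + 1))).sup' Finset.univ_nonempty
      (fun j => ((j : ℤ) + 2) * (((n : ℤ) + 2) - chi (j + 1)))
termination_by n => n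
decreasing_by
  have := j.2
  omega

end Pool.Agent.R272.Chi
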