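import Mathlib
import Pool.Agent.R272.Chi.Defs

set_option autoImplicit false

namespace Pool.Agent.R272.Chi

open Finset

lemma chi_one : chi 1 = 1 := by rw [chi]

lemma chi_ge (k j : ℕ) (hj : 1 ≤ j) (hjk : j < k) : ((j : ℤ) + 1) * ((k : ℤ) - chi j) ≤ chi k := by
  obtain ⟨n, rfl⟩ : ∃ n, k = n + 2 := ⟨k - 2, by omega⟩
  obtain ⟨i, rfl⟩ : ∃ i, j = i + 1 := ⟨j - 1, by omega⟩
  conv_rhs => rw [chi]
  have h := Finset.le_sup' (fun j : Fin (n + 1) => ((j : ℤ) + 2) * (((n : ℤ) + 2) - chi (j + 1)))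
    (Finset.mem_univ (⟨i, by omega⟩ : Fin (n + 1)))
  refine le_trans (le_of_eq ?_) h
  push_cast
  ring

lemma chi_eq (k : ℕ) (hk : 2 ≤ k) : ∃ j, 1 ≤ j ∧ j < k ∧
    chi k = ((j : ℤ) + 1) * ((k : ℤ) - chi j) := by
  obtain ⟨n, rfl⟩ : ∃ n, k = n + 2 := ⟨k - 2, by omega⟩
  obtain ⟨i, _, hi⟩ := Finset.exists_mem_eq_sup' (Finset.univ_nonempty (α := Fin (n + 1)))
    (fun j : Fin (n + 1) => ((j : ℤ) + 2) * (((n : ℤ) + 2) - chi (j + 1)))
  refine ⟨i + 1, by omega, by have := i.2; omega, ?_⟩
  rw [chi, hi]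
  push_cast
  ring

lemma chi_ge_self (k : ℕ) (hk : 1 ≤ k) : (k : ℤ) ≤ chi k := by
  rcases Nat.lt_or_ge k 2 with h | h
  · have : k = 1 := by omega
    subst this
    rw [chi_one]; norm_num
  · have h1 := chi_ge k 1 le_rfl (by omega)
    rw [chi_one] at h1
    push_cast at h1
    have h2 : (2 : ℤ) ≤ k := by exact_mod_cast h
    linarith

lemma chi_le (k : ℕ) (hk : 1 ≤ k) : 4 * chi k ≤ ((k : ℤ) + 1) ^ 2 := by
  rcases Nat.lt_or_ge k 2 with h | h
  · have : k = 1 := by omega
    subst this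
    rw [chi_one]; norm_num
  · obtain ⟨j, hj1, hjk, hj⟩ := chi_eq k h
    have h1 := chi_ge_self j hj1
    rw [hj]
    have h2 : ((j : ℤ) + 1) * ((k : ℤ) - chi j) ≤ ((j : ℤ) + 1) * ((k : ℤ) - j) := by
      apply mul_le_mul_of_nonneg_left (by linarith) (by positivity)
    nlinarith [sq_nonneg (((j : ℤ) + 1) - ((k : ℤ) - j))]

lemma c2 : chi 2 = 2 := by
  obtain ⟨j, h1, h2, h3⟩ := chi_eq 2 (by norm_num)
  interval_cases j
  rw [h3, chi_one]; norm_num

lemma c3 : chi 3 = 4 := by
  have hl := chi_ge 3 1 (by norm_num) (by norm_num)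
  obtain ⟨j, h1, h2, h3⟩ := chi_eq 3 (by norm_num)
  rw [chi_one] at hl
  interval_cases j <;> simp only [chi_one, c2] at h3 <;> push_cast at h3 hl <;> omega

lemma c4 : chi 4 = 6 := by
  have hl := chi_ge 4 1 (by norm_num) (by norm_num)
  obtain ⟨j, h1, h2, h3⟩ := chi_eq 4 (by norm_num)
  rw [chi_one] at hl
  interval_cases j <;> simp only [chi_one, c2, c3] at h3 <;> push_cast at h3 hl <;> omega

lemma c5 : chi 5 = 9 := by
  have hl := chi_ge 5 2 (by norm_num) (by norm_num)
  obtain ⟨j, h1, h2, h3⟩ := chi_eq 5 (by norm_num)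
  rw [c2] at hl
  interval_cases j <;> simp only [chi_one, c2, c3, c4] at h3 <;> push_cast at h3 hl <;> omega

lemma c6 : chi 6 = 12 := by
  have hl := chi_ge 6 2 (by norm_num) (by norm_num)
  obtain ⟨j, h1, h2, h3⟩ := chi_eq 6 (by norm_num)
  rw [c2] at hl
  interval_cases j <;> simp only [chi_one, c2, c3, c4, c5] at h3 <;> push_cast at h3 hl <;> omega

lemma c7 : chi 7 = 15 := by
  have hl := chi_ge 7 2 (by norm_num) (by norm_num)
  obtain ⟨j, h1, h2, h3⟩ := chi_eq 7 (by norm_num)
  rw [c2] at hl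
  interval_cases j <;> simp only [chi_one, c2, c3, c4, c5, c6] at h3 <;>
    push_cast at h3 hl <;> omega

lemma c8 : chi 8 = 18 := by
  have hl := chi_ge 8 2 (by norm_num) (by norm_num)
  obtain ⟨j, h1, h2, h3⟩ := chi_eq 8 (by norm_num)
  rw [c2] at hl
  interval_cases j <;> simp only [chi_one, c2, c3, c4, c5, c6, c7] at h3 <;>
    push_cast at h3 hl <;> omega

lemma c9 : chi 9 = 21 := by
  have hl := chi_ge 9 2 (by norm_num) (by norm_num)
  obtain ⟨j, h1, h2, h3⟩ := chi_eq 9 (by norm_num)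
  rw [c2] at hl
  interval_cases j <;> simp only [chi_one, c2, c3, c4, c5, c6, c7, c8] at h3 <;>
    push_cast at h3 hl <;> omega

lemma c10 : chi 10 = 24 := by
  have hl := chi_ge 10 2 (by norm_num) (by norm_num)
  obtain ⟨j, h1, h2, h3⟩ := chi_eq 10 (by norm_num)
  rw [c2] at hl
  interval_cases j <;> simp only [chi_one, c2, c3, c4, c5, c6, c7, c8, c9] at h3 <;>
    push_cast at h3 hl <;> omega

/-- The values `χ_1, …, χ_50` (only used as lower bounds). -/
def low : List ℤ := [1, 2, 4, 6, 9, 12, 15, 18, 21, 24, 28, 32, 36, 40, 45, 50, 55, 60, 65, 70, 75, 80, 85, 90, 96, 102, 108, 114, 120, 126, 133, 140, 147, 154, 161, 168, 176, 184, 192, 200, 208, 216, 225, 234, 243, 252, 261, 270, 280, 290]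

lemma low_le (k : ℕ) (hk : k < 50) : low.getD k 0 ≤ chi (k + 1) := by
  interval_cases k
  · rw [chi_one]; decide
  · rw [c2]; decide
  · rw [c3]; decide
  · rw [c4]; decide
  · rw [c5]; decide
  · rw [c6]; decide
  · rw [c7]; decide
  · rw [c8]; decide
  · rw [c9]; decide
  · rw [c10]; decide
  · have h := chi_ge 11 3 (by norm_num) (by norm_num)
    rw [c3] at h
    norm_num [low] at h ⊢
    linarith
  · have h := chi_ge 12 3 (by norm_num) (by norm_num)
    rw [c3] at h
    norm_num [low] at h ⊢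
    linarith
  · have h := chi_ge 13 3 (by norm_num) (by norm_num)
    rw [c3] at h
    norm_num [low] at h ⊢
    linarith
  · have h := chi_ge 14 3 (by norm_num) (by norm_num)
    rw [c3] at h
    norm_num [low] at h ⊢
    linarith
  · have h := chi_ge 15 4 (by norm_num) (by norm_num)
    rw [c4] at h
    norm_num [low] at h ⊢
    linarith
  · have h := chi_ge 16 4 (by norm_num) (by norm_num)
    rw [c4] at h
    norm_num [low] at h ⊢
    linarith
  · have h := chi_ge 17 4 (by norm_num) (by norm_num)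
    rw [c4] at h
    norm_num [low] at h ⊢
    linarith
  · have h := chi_ge 18 4 (by norm_num) (by norm_num)
    rw [c4] at h
    norm_num [low] at h ⊢
    linarith
  · have h := chi_ge 19 4 (by norm_num) (by norm_num)
    rw [c4] at h
    norm_num [low] at h ⊢
    linarith
  · have h := chi_ge 20 4 (by norm_num) (by norm_num)
    rw [c4] at h
    norm_num [low] at h ⊢
    linarith
  · have h := chi_ge 21 4 (by norm_num) (by norm_num)
    rw [c4] at h
    norm_num [low] at h ⊢
    linarith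
  · have h := chi_ge 22 4 (by norm_num) (by norm_num)
    rw [c4] at h
    norm_num [low] at h ⊢
    linarith
  · have h := chi_ge 23 4 (by norm_num) (by norm_num)
    rw [c4] at h
    norm_num [low] at h ⊢
    linarith
  · have h := chi_ge 24 4 (by norm_num) (by norm_num)
    rw [c4] at h
    norm_num [low] at h ⊢
    linarith
  · have h := chi_ge 25 5 (by norm_num) (by norm_num)
    rw [c5] at h
    norm_num [low] at h ⊢
    linarith
  · have h := chi_ge 26 5 (by norm_num) (by norm_num)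
    rw [c5] at h
    norm_num [low] at h ⊢
    linarith
  · have h := chi_ge 27 5 (by norm_num) (by norm_num)
    rw [c5] at h
    norm_num [low] at h ⊢
    linarith
  · have h := chi_ge 28 5 (by norm_num) (by norm_num)
    rw [c5] at h
    norm_num [low] at h ⊢
    linarith
  · have h := chi_ge 29 5 (by norm_num) (by norm_num)
    rw [c5] at h
    norm_num [low] at h ⊢
    linarith
  · have h := chi_ge 30 5 (by norm_num) (by norm_num)
    rw [c5] at h
    norm_num [low] at h ⊢
    linarith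
  · have h := chi_ge 31 6 (by norm_num) (by norm_num)
    rw [c6] at h
    norm_num [low] at h ⊢
    linarith
  · have h := chi_ge 32 6 (by norm_num) (by norm_num)
    rw [c6] at h
    norm_num [low] at h ⊢
    linarith
  · have h := chi_ge 33 6 (by norm_num) (by norm_num)
    rw [c6] at h
    norm_num [low] at h ⊢
    linarith
  · have h := chi_ge 34 6 (by norm_num) (by norm_num)
    rw [c6] at h
    norm_num [low] at h ⊢
    linarith
  · have h := chi_ge 35 6 (by norm_num) (by norm_num)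
    rw [c6] at h
    norm_num [low] at h ⊢
    linarith
  · have h := chi_ge 36 6 (by norm_num) (by norm_num)
    rw [c6] at h
    norm_num [low] at h ⊢
    linarith
  · have h := chi_ge 37 7 (by norm_num) (by norm_num)
    rw [c7] at h
    norm_num [low] at h ⊢
    linarith
  · have h := chi_ge 38 7 (by norm_num) (by norm_num)
    rw [c7] at h
    norm_num [low] at h ⊢
    linarith
  · have h := chi_ge 39 7 (by norm_num) (by norm_num)
    rw [c7] at h
    norm_num [low] at h ⊢
    linarith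
  · have h := chi_ge 40 7 (by norm_num) (by norm_num)
    rw [c7] at h
    norm_num [low] at h ⊢
    linarith
  · have h := chi_ge 41 7 (by norm_num) (by norm_num)
    rw [c7] at h
    norm_num [low] at h ⊢
    linarith
  · have h := chi_ge 42 7 (by norm_num) (by norm_num)
    rw [c7] at h
    norm_num [low] at h ⊢
    linarith
  · have h := chi_ge 43 8 (by norm_num) (by norm_num)
    rw [c8] at h
    norm_num [low] at h ⊢
    linarith
  · have h := chi_ge 44 8 (by norm_num) (by norm_num)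
    rw [c8] at h
    norm_num [low] at h ⊢
    linarith
  · have h := chi_ge 45 8 (by norm_num) (by norm_num)
    rw [c8] at h
    norm_num [low] at h ⊢
    linarith
  · have h := chi_ge 46 8 (by norm_num) (by norm_num)
    rw [c8] at h
    norm_num [low] at h ⊢
    linarith
  · have h := chi_ge 47 8 (by norm_num) (by norm_num)
    rw [c8] at h
    norm_num [low] at h ⊢
    linarith
  · have h := chi_ge 48 8 (by norm_num) (by norm_num)
    rw [c8] at h
    norm_num [low] at h ⊢
    linarith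
  · have h := chi_ge 49 9 (by norm_num) (by norm_num)
    rw [c9] at h
    norm_num [low] at h ⊢
    linarith
  · have h := chi_ge 50 9 (by norm_num) (by norm_num)
    rw [c9] at h
    norm_num [low] at h ⊢
    linarith

lemma low_pos (k : ℕ) (hk : k < 50) : 0 < low.getD k 0 := by
  interval_cases k <;> decide

lemma low_sum : ∑ k ∈ range 50, (1 : ℚ) / (low.getD k 0 : ℤ) ≤ 27546 / 10000 := by
  decide +kernel

lemma sum50 : ∑ k ∈ range 50, (1 : ℝ) / (chi (k + 1) : ℝ) ≤ 2.7546 := by
  have h1 : ∑ k ∈ range 50, (1 : ℝ) / (chi (k + 1) : ℝ) ≤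
      ∑ k ∈ range 50, (1 : ℝ) / ((low.getD k 0 : ℤ) : ℝ) := by
    refine Finset.sum_le_sum (fun k hk => ?_)
    rw [Finset.mem_range] at hk
    have h2 := low_le k hk
    have h3 := low_pos k hk
    have h4 : ((low.getD k 0 : ℤ) : ℝ) ≤ (chi (k + 1) : ℝ) := by exact_mod_cast h2
    have h5 : (0 : ℝ) < ((low.getD k 0 : ℤ) : ℝ) := by exact_mod_cast h3
    exact one_div_le_one_div_of_le h5 h4
  have h6 : ((∑ k ∈ range 50, (1 : ℚ) / (low.getD k 0 : ℤ) : ℚ) : ℝ) ≤ ((27546 / 10000 : ℚ) : ℝ) := by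
    exact_mod_cast low_sum
  push_cast at h6
  norm_num at h6 h1 ⊢
  linarith

/-- The `3/2` power lower bound. -/
lemma chi_big (N : ℕ) (hN : 51 ≤ N) :
    0.76 * ((N : ℝ) * Real.sqrt N) ≤ (chi N : ℝ) := by
  set s := Real.sqrt N with hs
  have hN' : (51 : ℝ) ≤ N := by exact_mod_cast hN
  have hs2 : s ^ 2 = N := Real.sq_sqrt (by linarith)
  have hs0 : 0 ≤ s := Real.sqrt_nonneg _
  have hs7 : 7.14 ≤ s := by
    rw [hs]
    apply Real.le_sqrt_of_sq_le
    norm_num
    linarith
  set m := ⌊1.22 * s⌋₊ with hm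
  have hm1 : (m : ℝ) ≤ 1.22 * s := Nat.floor_le (by positivity)
  have hm2 : 1.22 * s < m + 1 := Nat.lt_floor_add_one _
  have hm3 : 1.08 * s ≤ m + 0.001 * s := by
    linarith
  have hm5 : 2 ≤ m := by
    have : (2 : ℝ) ≤ ((m : ℕ) : ℝ) + 0.9 := by linarith
    by_contra h
    have h' : m ≤ 1 := by omega
    have : (m : ℝ) ≤ 1 := by exact_mod_cast h'
    linarith
  have hmN : m - 1 < N := by
    have h1 : (m : ℝ) < N := by nlinarith
    have : m < N := by exact_mod_cast h1
    omega
  have h1 := chi_ge N (m - 1) (by omega) hmN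
  have h2 := chi_le (m - 1) (by omega)
  have e1 : ((m - 1 : ℕ) : ℤ) + 1 = m := by omega
  rw [e1] at h1 h2
  have h1' : (m : ℝ) * ((N : ℝ) - (chi (m - 1) : ℝ)) ≤ (chi N : ℝ) := by exact_mod_cast h1
  have h2' : 4 * (chi (m - 1) : ℝ) ≤ (m : ℝ) ^ 2 := by exact_mod_cast h2
  have hm0 : (0 : ℝ) < m := by
    have : 0 < m := by omega
    exact_mod_cast this
  have h3 : (m : ℝ) * ((N : ℝ) - (m : ℝ) ^ 2 / 4) ≤ (chi N : ℝ) := by
    refine le_trans ?_ h1'
    apply mul_le_mul_of_nonneg_left _ hm0.le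
    linarith
  refine le_trans ?_ h3
  rw [← hs2]
  set y : ℝ := (m : ℝ) with hy
  have hlo : 0 ≤ y - 1.079 * s := by linarith
  have hhi : 0 ≤ 1.22 * s - y := by linarith
  have hsum : 0 ≤ y + 2.299 * s := by positivity
  have hP := mul_nonneg (mul_nonneg hlo hhi) hsum
  have hys : 0 ≤ (y - 1.079 * s) * s ^ 2 := mul_nonneg hlo (by positivity)
  have hs3 : 0 ≤ s ^ 3 := by positivity
  nlinarith

end Pool.Agent.R272.Chi
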