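import Mathlib
import Pool.Agent.R272.Chi.Defs
import Pool.Agent.R272.Chi.Main

set_option autoImplicit false

namespace Pool.Agent.R272.Chi

open Finset

lemma chi_pos (k : ℕ) : 0 < (chi (k + 1) : ℝ) := by
  have h := chi_ge_self (k + 1) (by omega)
  have h2 : ((k + 1 : ℕ) : ℝ) ≤ (chi (k + 1) : ℝ) := by exact_mod_cast h
  have : (0 : ℝ) < ((k + 1 : ℕ) : ℝ) := by positivity
  linarith

lemma term_le (n : ℕ) (hn : 50 ≤ n) : (1 : ℝ) / (chi (n + 1) : ℝ) ≤
    2 / 0.76 * (1 / Real.sqrt n - 1 / Real.sqrt (n + 1 : ℕ)) := by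
  have h1 := chi_big (n + 1) (by omega)
  set s := Real.sqrt (n + 1 : ℕ) with hs
  set t := Real.sqrt n with ht
  have hn' : (50 : ℝ) ≤ n := by exact_mod_cast hn
  have ht2 : t ^ 2 = n := Real.sq_sqrt (by linarith)
  have hs2 : s ^ 2 = ((n + 1 : ℕ) : ℝ) := Real.sq_sqrt (by positivity)
  have ht0 : 0 < t := Real.sqrt_pos.mpr (by linarith)
  have hts : t ≤ s := Real.sqrt_le_sqrt (by push_cast; linarith)
  have hs0 : 0 < s := by linarith
  have hd : s ^ 2 - t ^ 2 = 1 := by rw [hs2, ht2]; push_cast; ring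
  rw [← hs2] at h1
  have h2 : (1 : ℝ) / (chi (n + 1) : ℝ) ≤ 1 / (0.76 * (s ^ 2 * s)) :=
    one_div_le_one_div_of_le (by positivity) h1
  refine h2.trans ?_
  have h3 : 1 / t - 1 / s = 1 / (s * t * (s + t)) := by
    have : (s - t) * (s + t) = 1 := by nlinarith
    field_simp
    linarith
  rw [h3]
  have h4 : s * t * (s + t) ≤ 2 * (s ^ 2 * s) := by
    have h5 : s * t ≤ s * s := by gcongr
    have h6 : s + t ≤ 2 * s := by linarith
    calc s * t * (s + t) ≤ (s * s) * (2 * s) := by gcongr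
      _ = 2 * (s ^ 2 * s) := by ring
  have h7 : 1 / (2 * (s ^ 2 * s)) ≤ 1 / (s * t * (s + t)) :=
    one_div_le_one_div_of_le (by positivity) h4
  calc 1 / (0.76 * (s ^ 2 * s)) = 2 / 0.76 * (1 / (2 * (s ^ 2 * s))) := by
        field_simp
    _ ≤ 2 / 0.76 * (1 / (s * t * (s + t))) := by gcongr

lemma partial_le (n : ℕ) : ∑ k ∈ range (50 + n), (1 : ℝ) / (chi (k + 1) : ℝ) ≤
    2.7546 + 2 / 0.76 * (1 / Real.sqrt 50 - 1 / Real.sqrt ((50 + n : ℕ) : ℝ)) := by
  induction n with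
  | zero =>
    simp only [add_zero]
    have := sum50
    push_cast
    simp only [sub_self, mul_zero, add_zero]
    exact this
  | succ n ih =>
    rw [show 50 + (n + 1) = (50 + n) + 1 by ring, Finset.sum_range_succ]
    have h := term_le (50 + n) (by omega)
    linarith

lemma const_le : 2.7546 + 2 / 0.76 * (1 / Real.sqrt 50) ≤ (3.128 : ℝ) := by
  have h1 : (7.071 : ℝ) ≤ Real.sqrt 50 := by
    apply Real.le_sqrt_of_sq_le; norm_num
  have h2 : 1 / Real.sqrt 50 ≤ 1 / 7.071 := one_div_le_one_div_of_le (by norm_num) h1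
  have h3 : (2.7546 : ℝ) + 2 / 0.76 * (1 / 7.071) ≤ 3.128 := by norm_num
  have h4 : (2 : ℝ) / 0.76 * (1 / Real.sqrt 50) ≤ 2 / 0.76 * (1 / 7.071) := by gcongr
  linarith

lemma range_le (n : ℕ) : ∑ k ∈ range n, (1 : ℝ) / (chi (k + 1) : ℝ) ≤ 3.128 := by
  have h1 : ∑ k ∈ range n, (1 : ℝ) / (chi (k + 1) : ℝ) ≤
      ∑ k ∈ range (50 + n), (1 : ℝ) / (chi (k + 1) : ℝ) := by
    apply Finset.sum_le_sum_of_subset_of_nonneg
    · intro k hk; simp only [mem_range] at hk ⊢; omega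
    · intro k _ _
      have := chi_pos k
      positivity
  have h2 := partial_le n
  have h3 := const_le
  have h4 : 0 ≤ 2 / 0.76 * (1 / Real.sqrt ((50 + n : ℕ) : ℝ)) := by positivity
  linarith

lemma chi_summable : Summable (fun k : ℕ => (1 : ℝ) / (chi (k + 1) : ℝ)) :=
  summable_of_sum_range_le (fun k => by have := chi_pos k; positivity) range_le

lemma chi_tsum_le : ∑' k : ℕ, (1 : ℝ) / (chi (k + 1) : ℝ) ≤ 3.128 :=
  Real.tsum_le_of_sum_range_le (fun k => by have := chi_pos k; positivity) range_le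

/-- three times the first 64 terms of the competing sequence -/
def tab : List ℕ := [2, 8, 14, 20, 26, 32, 39, 48, 57, 66, 76, 88, 100, 112, 125, 140, 155, 170,
  186, 204, 222, 240, 259, 280, 301, 322, 343, 364, 385, 408, 432, 456, 480, 504, 528, 552, 576,
  600, 624, 648, 675, 702, 729, 756, 783, 810, 840, 870, 900, 930, 960, 990, 1023, 1056, 1089,
  1122, 1155, 1188, 1221, 1254, 1287, 1320, 1356, 1392]

/-- three times the competing sequence -/
def bb (i : ℕ) : ℕ := if i ≤ 64 then tab.getD (i - 1) 0 else 3 * i ^ 2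

lemma bb_tab : ∀ i ∈ range 64, ∀ j ∈ range 64,
    3 * (j + 2) * (i + 1) ≤ (j + 2) * tab.getD j 0 + tab.getD i 0 := by
  decide +kernel

lemma bb_chi (i j : ℕ) (hi : 1 ≤ i) (hj : 1 ≤ j) :
    3 * (j + 1) * i ≤ (j + 1) * bb j + bb i := by
  unfold bb
  split_ifs with h1 h2 h2
  · have := bb_tab (i - 1) (by simp; omega) (j - 1) (by simp; omega)
    rw [show j - 1 + 2 = j + 1 by omega, show i - 1 + 1 = i by omega] at this
    exact this
  · push Not at h2
    have h3 : j ≤ i := by omega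
    have h4 : 3 * (j + 1) * i ≤ 3 * i ^ 2 := by
      have : j + 1 ≤ i := by omega
      nlinarith
    omega
  · push Not at h1
    have h4 : 3 * (j + 1) * i ≤ (j + 1) * (3 * j ^ 2) := by
      have h5 : i ≤ j ^ 2 := by nlinarith
      nlinarith
    omega
  · push Not at h1 h2
    rcases Nat.lt_or_ge j i with h | h
    · have h4 : 3 * (j + 1) * i ≤ 3 * i ^ 2 := by
        have : j + 1 ≤ i := by omega
        nlinarith
      omega
    · have h4 : 3 * (j + 1) * i ≤ (j + 1) * (3 * j ^ 2) := by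
        have h5 : i ≤ j ^ 2 := by nlinarith
        nlinarith
      omega

lemma bb_pos : ∀ i ∈ range 64, 0 < tab.getD i 0 := by decide +kernel

lemma bb_sum : (3159 / 1000 : ℚ) ≤ ∑ k ∈ range 64, (3 : ℚ) / (tab.getD k 0 : ℕ) := by
  decide +kernel

/-- the competing sequence -/
noncomputable def aa (i : ℕ) : ℝ := (bb i : ℝ) / 3

lemma aa_nonneg (k : ℕ) : 0 ≤ 1 / aa k := by
  unfold aa; positivity

lemma aa_summable : Summable (fun k : ℕ => 1 / aa (k + 1)) := by
  have h1 : Summable (fun k : ℕ => 1 / ((k : ℝ) ^ 2)) := Real.summable_one_div_nat_pow.mpr (by norm_num)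
  have h2 : Summable (fun k : ℕ => 1 / (((k + 65 : ℕ) : ℝ) ^ 2)) :=
    (summable_nat_add_iff 65).mpr h1
  rw [← summable_nat_add_iff 64]
  refine h2.congr (fun k => ?_)
  unfold aa bb
  rw [if_neg (by omega)]
  push_cast
  ring

lemma aa_tsum : (3.159 : ℝ) ≤ ∑' k : ℕ, 1 / aa (k + 1) := by
  have h1 : ∑ k ∈ range 64, 1 / aa (k + 1) ≤ ∑' k : ℕ, 1 / aa (k + 1) :=
    aa_summable.sum_le_tsum _ (fun k _ => aa_nonneg _)
  refine le_trans ?_ h1
  have h2 : ∑ k ∈ range 64, 1 / aa (k + 1) = ∑ k ∈ range 64, (3 : ℝ) / (tab.getD k 0 : ℕ) := by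
    refine Finset.sum_congr rfl (fun k hk => ?_)
    have hk' : k + 1 ≤ 64 := by rw [mem_range] at hk; omega
    unfold aa bb
    rw [if_pos hk', show k + 1 - 1 = k by omega, one_div_div]
  rw [h2]
  have h3 : ((3159 / 1000 : ℚ) : ℝ) ≤
      ((∑ k ∈ range 64, (3 : ℚ) / (tab.getD k 0 : ℕ) : ℚ) : ℝ) := by exact_mod_cast bb_sum
  push_cast at h3
  norm_num at h3 ⊢
  exact h3

theorem main : ∃ a : ℕ → ℝ,
    (∀ i j : ℕ, 1 ≤ i → 1 ≤ j → ((j : ℝ) + 1) * i ≤ ((j : ℝ) + 1) * a j + a i) ∧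
    Summable (fun k : ℕ => (1 : ℝ) / (chi (k + 1) : ℝ)) ∧
    Summable (fun k : ℕ => 1 / a (k + 1)) ∧
    ∑' k : ℕ, (1 : ℝ) / (chi (k + 1) : ℝ) < ∑' k : ℕ, 1 / a (k + 1) := by
  refine ⟨aa, ?_, chi_summable, aa_summable, ?_⟩
  · intro i j hi hj
    have h := bb_chi i j hi hj
    have h' : (3 : ℝ) * (j + 1) * i ≤ (j + 1) * (bb j : ℝ) + (bb i : ℝ) := by exact_mod_cast h
    unfold aa
    linarith
  · have h1 := chi_tsum_le
    have h2 := aa_tsum
    linarith

end Pool.Agent.R272.Chi
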